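import Pool.Agent.H.MP_322e80_ag.H

namespace Pool.Agent.Results.MP_322e80_ag.Yes

/-- The Zariski tangent space of the affine variety with coordinate ring `A` at the point `x`
(a `ℂ`-algebra map `A → ℂ`): the space of point derivations of `A` at `x`. -/
def Tan {A : Type} [CommRing A] [Algebra ℂ A] (x : A →ₐ[ℂ] ℂ) : Set (Module.Dual ℂ A) :=
  {D | ∀ a b, D (a * b) = x a * D b + x b * D a}

/-- The subgroup `H` fixes the point `x`, and the isotropy representation of `H` on the tangent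
space at `x` (`h` sends the tangent vector `D` to `a ↦ D (σ h⁻¹ a)`) is isomorphic to `ρ`: some
injective linear map `e` from `V` onto the tangent space intertwines the two actions. -/
def HasIsotropy {G A V : Type} [Group G] [CommRing A] [Algebra ℂ A] [AddCommGroup V] [Module ℂ V]
    (σ : G →* (A ≃ₐ[ℂ] A)) (x : A →ₐ[ℂ] ℂ) (H : Subgroup G) (ρ : Representation ℂ H V) : Prop :=
  (∀ h ∈ H, ∀ a, x (σ h a) = x a) ∧
    ∃ e : V →ₗ[ℂ] Module.Dual ℂ A, Function.Injective e ∧ Set.range e = Tan x ∧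
      ∀ (h : H) w a, e (ρ h w) a = e w (σ (h : G)⁻¹ a)

theorem result (G : Type) [Group G] [Finite G] (r : ℕ) (H : Fin r → Subgroup G) (d : ℕ)
    (hd : 1 ≤ d) (V : Fin r → Type) [∀ i, AddCommGroup (V i)] [∀ i, Module ℂ (V i)]
    (hV : ∀ i, Module.finrank ℂ (V i) = d) (ρ : ∀ i, Representation ℂ (H i) (V i))
    (hρ : ∀ i, Function.Injective (ρ i)) :
    ∃ (A : Type) (_ : CommRing A) (_ : IsDomain A) (_ : Algebra ℂ A) (_ : Algebra.FiniteType ℂ A)
      (σ : G →* (A ≃ₐ[ℂ] A)) (x : Fin r → (A →ₐ[ℂ] ℂ)),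
      ringKrullDim A = d ∧ Function.Injective x ∧ ∀ i, HasIsotropy σ (x i) (H i) (ρ i) := by
  have : Nonempty (Fin d) := ⟨⟨0, hd⟩⟩
  have : ∀ i, Module.Finite ℂ (V i) := fun i => Module.finite_of_finrank_pos (by rw [hV]; exact hd)
  let b := fun i => Module.finBasisOfFinrankEq ℂ (V i) (hV i)
  obtain ⟨A, _, _, _, _, σ, x, v, h1, -, h2, h3, h4, h5, h6⟩ := Pool.Agent.H.MP_322e80_ag.good H
    (fun i => (LinearMap.toMatrixAlgEquiv (b i)).toMonoidHom.comp (ρ i))
    fun i => (LinearMap.toMatrixAlgEquiv (b i)).injective.comp (hρ i)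
  refine ⟨A, _, ‹_›, _, ‹_›, σ, x, by simpa using h1, h2, fun i =>
    ⟨fun h hh => h3 i ⟨h, hh⟩, ?_⟩⟩
  let T : Submodule ℂ (Module.Dual ℂ A) :=
    { carrier := Tan (x i)
      add_mem' {D D'} h h' a b := by simp only [LinearMap.add_apply, h a b, h' a b]; ring
      zero_mem' a b := by simp
      smul_mem' c D h a b := by simp only [LinearMap.smul_apply, h a b, smul_eq_mul]; ring }
  let f : T →ₗ[ℂ] Fin d → ℂ :=
    { toFun D l := D.1 (v i l), map_add' _ _ := rfl, map_smul' _ _ := rfl }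
  have hf : Function.Bijective f := by
    refine ⟨(injective_iff_map_eq_zero f).mpr fun D e => Subtype.ext (h5 i D.1 D.2 (congrFun e)),
      fun ξ => ?_⟩
    obtain ⟨D, e1, e2⟩ := h6 i ξ
    exact ⟨⟨D, e1⟩, funext e2⟩
  let e := (b i).equivFun.trans (LinearEquiv.ofBijective f hf).symm
  have he : ∀ w, f (e w) = (b i).equivFun w := fun w =>
    (LinearEquiv.ofBijective f hf).apply_symm_apply _
  refine ⟨T.subtype ∘ₗ e.toLinearMap, Subtype.val_injective.comp e.injective, ?_, fun h w a => ?_⟩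
  · ext D
    exact ⟨fun ⟨w, hw⟩ => hw ▸ (e w).2, fun hD => ⟨e.symm ⟨D, hD⟩, by simp⟩⟩
  · let D : T := ⟨(e w).1 ∘ₗ (σ (h⁻¹ : H i)).toLinearMap, fun a b => by
      simpa only [LinearMap.comp_apply, AlgEquiv.toLinearMap_apply, map_mul, h3] using
        (e w).2 (σ (h⁻¹ : H i) a) (σ (h⁻¹ : H i) b)⟩
    suffices e (ρ i h w) = D from congrArg (fun y : T => y.1 a) this
    refine hf.1 (funext fun l => ?_)
    have e1 := congrArg (e w).1 (h4 i h l)
    rw [map_sum] at e1
    refine (congrFun (he _) l).trans (Eq.trans ?_ e1.symm)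
    have e2 : ∀ l, (e w).1 (v i l) = (b i).repr w l := congrFun (he w)
    conv_lhs => rw [← (b i).sum_repr w]
    simp [e2, LinearMap.toMatrixAlgEquiv_apply, mul_comm, -Module.Basis.sum_repr]

end Pool.Agent.Results.MP_322e80_ag.Yes
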